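import Pool.Agent.Helper17.IA.StV

/-!
# Project IA, module VST: one step of the vortex
-/

set_option autoImplicit false

namespace Pool.Agent.Helper99.IA

open Finset Pool.Agent.Helper93.IA Pool.Agent.Helper17.IA

/-- The estimate for one count. -/
private lemma est (s m κ f f' P Q : ℝ) (hs : 0 < s) (hm : 0 ≤ m)
    (hvan : P * m / s ≤ Q / 10) (hQ : 0 ≤ Q)
    (h1 : |f' - f * m / s| ≤ Q) (h2 : κ * s - 2 * P ≤ f) (h3 : f ≤ κ * s + 2 * P) :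
    κ * m - 2 * Q ≤ f' ∧ f' ≤ κ * m + 2 * Q := by
  have hms : 0 ≤ m / s := div_nonneg hm hs.le
  have e1 : κ * s * (m / s) = κ * m := by field_simp
  have e2 : f * m / s = f * (m / s) := by ring
  have e3 : P * m / s = P * (m / s) := by ring
  have l1 : (κ * s - 2 * P) * (m / s) ≤ f * (m / s) := mul_le_mul_of_nonneg_right h2 hms
  have l2 : f * (m / s) ≤ (κ * s + 2 * P) * (m / s) := mul_le_mul_of_nonneg_right h3 hms
  rw [sub_mul, e1] at l1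
  rw [add_mul, e1] at l2
  rw [e2] at h1
  rw [e3] at hvan
  obtain ⟨a1, a2⟩ := abs_le.mp h1
  constructor <;> nlinarith

theorem hVST : StVST := by
  intro hSUB hVSF hVAN ξ hξ hξ1
  obtain ⟨n0, hn0⟩ := hVSF hSUB ξ hξ (by linarith)
  refine ⟨max 1 n0, le_max_left _ _, ?_⟩
  intro n s κ A B C S hs hS hN
  have hs1 : 1 ≤ s := le_trans (le_max_left _ _) hs
  have hs2 : n0 ≤ s := le_trans (le_max_right _ _) hs
  have hs0 : (0 : ℝ) < s := by exact_mod_cast hs1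
  obtain ⟨U0, hU0, hc0, hA0, hB0⟩ := hn0 n s A C (S 0) (S 1) (S 2) hs2 (hS 0) (hS 1) (hS 2)
  obtain ⟨U1, hU1, hc1, hA1, hB1⟩ := hn0 n s B A (S 1) (S 2) (S 0) hs2 (hS 1) (hS 2) (hS 0)
  obtain ⟨U2, hU2, hc2, hA2, hB2⟩ := hn0 n s C B (S 2) (S 0) (S 1) hs2 (hS 2) (hS 0) (hS 1)
  have hm : (0 : ℝ) ≤ ((⌊ξ * s⌋₊ : ℕ) : ℝ) := Nat.cast_nonneg _
  have hmle : ((⌊ξ * s⌋₊ : ℕ) : ℝ) ≤ (s : ℝ) / 1000 := by
    have h1 : ((⌊ξ * s⌋₊ : ℕ) : ℝ) ≤ ξ * s := Nat.floor_le (mul_nonneg hξ.le hs0.le)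
    have h2 : ξ * s ≤ 1 / 1000 * s := mul_le_mul_of_nonneg_right hξ1 hs0.le
    linarith
  have hvan := hVAN s _ hm hmle
  have hQ : (0 : ℝ) ≤ ((⌊ξ * s⌋₊ : ℕ) : ℝ) ^ ((2 : ℝ) / 3) := Real.rpow_nonneg hm _
  rw [hc0] at hA0 hB0
  rw [hc1] at hA1 hB1
  rw [hc2] at hA2 hB2
  obtain ⟨⟨a1, a2⟩, ⟨b1, b2⟩, c1, c2⟩ := hN
  refine ⟨![U0, U1, U2], ?_, ?_, ?_⟩
  · intro j
    fin_cases j
    · exact hU0
    · exact hU1
    · exact hU2
  · intro j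
    fin_cases j
    · exact hc0
    · exact hc1
    · exact hc2
  · have key := fun f f' : ℝ => est s _ κ f f' _ _ hs0 hm hvan hQ
    refine ⟨⟨?_, ?_⟩, ⟨?_, ?_⟩, ?_, ?_⟩
    · intro a ha
      exact key _ _ (hB1 a ha) (a1 a ha).1 (a1 a ha).2
    · intro b hb
      exact key _ _ (hA0 b hb) (a2 b hb).1 (a2 b hb).2
    · intro a ha
      exact key _ _ (hB2 a ha) (b1 a ha).1 (b1 a ha).2
    · intro b hb
      exact key _ _ (hA1 b hb) (b2 b hb).1 (b2 b hb).2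
    · intro a ha
      exact key _ _ (hB0 a ha) (c1 a ha).1 (c1 a ha).2
    · intro b hb
      exact key _ _ (hA2 b hb) (c2 b hb).1 (c2 b hb).2

end Pool.Agent.Helper99.IA
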